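import Pool.Agent.KS6_70.Lerf.L6

/-! Continuum many finitely generated center-by-metabelian LERF groups, no product of which with any
group is flexibly permutation stable. -/

set_option autoImplicit false

namespace Pool.Agent.Results.MP_7bd500_al.ContinuumMany

open Pool.Agent.KS6_70.Lerf Pool.Agent.KS6_70.Lerf.Defs Pool.Agent.KS6_70.Lerf.Amen

/-- There are continuum many pairwise non-isomorphic groups `𝒢 i` which are finitely generated and
center-by-metabelian (so solvable of derived length at most three), amenable and LERF, such that for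
every group `H` no presentation of `𝒢 i × H`, and no presentation of `𝒢 i`, is flexibly permutation
stable; in particular none is permutation stable. -/
theorem result :
    ∃ (I : Type) (𝒢 : I → Type) (_ : ∀ i, Group (𝒢 i)),
      Cardinal.mk I = Cardinal.continuum ∧ (∀ i j, i ≠ j → IsEmpty (𝒢 i ≃* 𝒢 j)) ∧
      ∀ i, Group.FG (𝒢 i) ∧ derivedSeries (𝒢 i) 2 ≤ Subgroup.center (𝒢 i) ∧
        Group.IsSolvable (𝒢 i) ∧ Amenable (𝒢 i) ∧ IsLERF (𝒢 i) ∧
        (∀ (S : Type) (π : FreeGroup S →* 𝒢 i), Function.Surjective π →
          ¬ FlexStable π ∧ ¬ PermStable π) ∧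
        ∀ (H S : Type) [Group H] (π : FreeGroup S →* 𝒢 i × H), Function.Surjective π →
          ¬ FlexStable π ∧ ¬ PermStable π := by
  refine ⟨Quotient isoSetoid, fun c => Gr (par c.out), fun c => inferInstance, card_classes,
    fun c d hcd => ⟨fun e => hcd ?_⟩, fun c => ?_⟩
  · rw [← Quotient.out_eq c, ← Quotient.out_eq d]
    exact Quotient.sound ⟨e⟩
  · have hs := @solv (par c.out)
    have ha : Amenable (Gr (par c.out)) :=
      @amenable_of_solvable (Gr (par c.out)) _ hs
    refine ⟨@fg (par c.out), @derived_two (par c.out), hs, ha, @lerf (par c.out), ?_, ?_⟩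
    · intro S π hπ
      have h := @not_flex' (par c.out) S π hπ
      exact ⟨h, fun hp => h hp.flex⟩
    · intro H S _ π hπ
      have h := @not_flex (par c.out) H S _ π hπ
      exact ⟨h, fun hp => h hp.flex⟩

end Pool.Agent.Results.MP_7bd500_al.ContinuumMany
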